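import Mathlib
import Pool.Agent.Q290.Ent.Fin

/-!
# Pointwise entropic repulsion can fail for fields which only satisfy (S) and (N)

Answer to Q2: no.  There is a centred stationary Gaussian field on `ℤ`, with a spectral measure of
order `α = 0` at the origin whose absolutely continuous part has mass `m = 1` and whose remaining
part is discrete, for which statement (E) is false.  The field is a sum of independent standard
normal variables and of random modes of the frequencies `π / 2^(16^k + 1)` with the variances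
`4^(-(8^k - 1) / 7)`.  On the balls of radius a quarter of a period of one of the modes the
equilibrium potential is close to `1`, but the conditional means in the centre are much larger than
`ℓ_T`: the mode is cheap, and a large amplitude leaves only a few sites near the two ends of the
interval at which the field has to be large.
-/

set_option autoImplicit false

open MeasureTheory ProbabilityTheory Filter Topology

namespace Pool.Agent.Results.MP_ecc084_pr.PointwiseRepulsionFails

/-- `X` is a centred stationary Gaussian field on `ℤ` with spectral measure `μ`. -/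
structure IsField {Ω : Type} [MeasurableSpace Ω] (P : Measure Ω) (X : ℤ → Ω → ℝ)
    (μ : Measure ℝ) : Prop where
  gaussian : IsGaussianProcess X P
  mean : ∀ x, ∫ ω, X x ω ∂P = 0
  cov : ∀ x y, ((∫ ω, X x ω * X y ω ∂P : ℝ) : ℂ) =
    ∫ l, Complex.exp (Complex.I * l * ((x - y : ℤ) : ℂ)) ∂μ

/-- `μ` is a spectral measure of a field on `ℤ`: finite, symmetric, carried by `[-π, π]`. -/
structure IsSpectral (μ : Measure ℝ) : Prop where
  finite : IsFiniteMeasure μ
  symm : μ.map (fun l => -l) = μ
  carried : μ (Set.Icc (-Real.pi) Real.pi)ᶜ = 0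

/-- Condition (S): `μ` has order `α` at the origin. -/
def CondS (μ : Measure ℝ) (α : ℝ) : Prop :=
  Tendsto (fun δ : ℝ => Real.log (μ.real (Metric.ball 0 δ)) / Real.log δ) (𝓝[>] 0) (𝓝 α)

/-- Condition (N): the absolutely continuous part of `μ` is not zero, its mass is `m`, and the rest
of `μ` is discrete. -/
def CondN (μ : Measure ℝ) (m : ℝ) : Prop :=
  ∃ μac μd : Measure ℝ, μ = μac + μd ∧ μac ≪ volume ∧ μac ≠ 0 ∧ μac.real Set.univ = m ∧
    ∃ C : Set ℝ, C.Countable ∧ μd Cᶜ = 0

/-- `h = F[g dμ]` with `g ∈ L²(μ)`, a real function on `ℤ` in the reproducing kernel Hilbert space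
of the field, whose norm is the norm of `g`, and `h ≥ 1` on the ball of radius `T`. -/
def IsPotential (μ : Measure ℝ) (T : ℝ) (g : Lp ℂ 2 μ) (h : ℤ → ℝ) : Prop :=
  (∀ x : ℤ, (h x : ℂ) = ∫ l, Complex.exp (Complex.I * l * x) * g l ∂μ) ∧
    ∀ x : ℤ, |(x : ℝ)| ≤ T → 1 ≤ h x

/-- `h` is the equilibrium potential of the ball of radius `T`: among the functions of the
reproducing kernel Hilbert space which are at least `1` on the ball it has the least norm. -/
def IsEquilibrium (μ : Measure ℝ) (T : ℝ) (h : ℤ → ℝ) : Prop :=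
  ∃ g, IsPotential μ T g h ∧ ∀ g' h', IsPotential μ T g' h' → ‖g‖ ≤ ‖g'‖

/-- Persistence on the ball of radius `T`. -/
def Per {Ω : Type} (X : ℤ → Ω → ℝ) (T : ℝ) : Set Ω := {ω | ∀ x : ℤ, |(x : ℝ)| ≤ T → 0 ≤ X x ω}

/-- Statement (E) for a field on `ℤ` (`d = 1`), for the constants `m` and `α`: the largest distance
on the ball of radius `T` between `E[X x | Per T] / ℓ_T` and `h_T x`, where
`ℓ_T = √(2 m (1 - α) log T)`, tends to zero as `T → ∞`. -/
def StatementE {Ω : Type} [MeasurableSpace Ω] (P : Measure Ω) (X : ℤ → Ω → ℝ) (m α : ℝ)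
    (h : ℝ → ℤ → ℝ) : Prop :=
  ∀ ε : ℝ, 0 < ε → ∀ᶠ T : ℝ in atTop, ∀ x : ℤ, |(x : ℝ)| ≤ T →
    |(∫ ω in Per X T, X x ω ∂P) / P.real (Per X T) / √(2 * m * (1 - α) * Real.log T) - h T x| ≤ ε

/-- There is a spectral measure `μ` with (S) for `α = 0` and (N) for `m = 1` for which all
equilibrium potentials exist and are unique, and a centred stationary Gaussian field on `ℤ` with
spectral measure `μ`, all persistence events having positive probability, for which (E) fails. -/
theorem result : ∃ μ : Measure ℝ, IsSpectral μ ∧ CondS μ 0 ∧ CondN μ 1 ∧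
    (∀ T : ℝ, ∃! h, IsEquilibrium μ T h) ∧
    ∃ (Ω : Type) (_ : MeasurableSpace Ω) (P : Measure Ω) (_ : IsProbabilityMeasure P)
      (X : ℤ → Ω → ℝ), IsField P X μ ∧ (∀ T : ℝ, 0 < P (Per X T)) ∧
      ∀ h : ℝ → ℤ → ℝ, (∀ T, IsEquilibrium μ T (h T)) → ¬ StatementE P X 1 0 h :=
  ⟨Q290.Ent.μs, ⟨inferInstance, Q290.Ent.μs_symm, Q290.Ent.μs_carried⟩, Q290.Ent.condS,
    ⟨Q290.Ent.μac, Q290.Ent.μd, Q290.Ent.condN⟩, Q290.Ent.existsUnique_eq,
    Q290.Ent.Om, inferInstance, Q290.Ent.PP, inferInstance, Q290.Ent.X,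
    ⟨Q290.Ent.isGaussianProcess_X, Q290.Ent.mean_X, Q290.Ent.cov_field⟩, Q290.Ent.Per_pos,
    fun h hh hE => Q290.Ent.not_repulsion h hh hE⟩

end Pool.Agent.Results.MP_ecc084_pr.PointwiseRepulsionFails
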